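import Mathlib

/-!
# Independent sets of a submodular function with a defect
-/

set_option autoImplicit false

namespace Pool.Agent.N164.RQ

variable {κ : Type} [DecidableEq κ]

/-- If `f` is submodular and `r ≤ f J + |I \ J|` for all `J ⊆ I`, then there is `E ⊆ I` with `r`
members such that `|J| ≤ f J` for all `J ⊆ E`. -/
theorem exists_defect (f : Finset κ → ℕ) (hf : ∀ A B, f (A ∪ B) + f (A ∩ B) ≤ f A + f B) (r : ℕ) :
    ∀ I : Finset κ, r ≤ I.card → (∀ J ⊆ I, r ≤ f J + (I \ J).card) →
      ∃ E ⊆ I, E.card = r ∧ ∀ J ⊆ E, J.card ≤ f J := by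
  intro I
  induction I using Finset.strongInduction with
  | H I ih =>
  intro hr hI
  rcases hr.eq_or_lt with h0 | h0
  · refine ⟨I, subset_rfl, h0.symm, fun J hJ => ?_⟩
    have h1 := hI J hJ
    have h2 := Finset.card_sdiff_add_card_eq_card hJ
    omega
  -- the tight sets
  let tight : Finset κ → Prop := fun J => J ⊆ I ∧ f J + (I \ J).card = r
  have hinter : ∀ A B, tight A → tight B → tight (A ∩ B) := by
    rintro A B ⟨hA, hA'⟩ ⟨hB, hB'⟩
    refine ⟨Finset.inter_subset_left.trans hA, ?_⟩
    have h1 := hI (A ∪ B) (Finset.union_subset hA hB)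
    have h2 := hI (A ∩ B) (Finset.inter_subset_left.trans hA)
    have h3 := hf A B
    have h4 := Finset.card_sdiff_add_card_eq_card hA
    have h5 := Finset.card_sdiff_add_card_eq_card hB
    have h6 := Finset.card_sdiff_add_card_eq_card (Finset.union_subset hA hB)
    have h7 := Finset.card_sdiff_add_card_eq_card (Finset.inter_subset_left.trans hA : A ∩ B ⊆ I)
    have h8 := Finset.card_union_add_card_inter A B
    omega
  obtain ⟨x, hx, hx'⟩ : ∃ x ∈ I, ∀ J ⊆ I.erase x, r + 1 ≤ f J + (I \ J).card := by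
    by_cases hex : ∃ J, tight J
    · classical
      obtain ⟨J₀, hJ₀, hmin⟩ : ∃ J, tight J ∧ ∀ J', tight J' → J.card ≤ J'.card := by
        have h1 : (I.powerset.filter tight).Nonempty := by
          obtain ⟨J, hJ⟩ := hex
          exact ⟨J, Finset.mem_filter.2 ⟨Finset.mem_powerset.2 hJ.1, hJ⟩⟩
        obtain ⟨J, hJ, h2⟩ := Finset.exists_min_image _ Finset.card h1
        exact ⟨J, (Finset.mem_filter.1 hJ).2, fun J' hJ' =>
          h2 J' (Finset.mem_filter.2 ⟨Finset.mem_powerset.2 hJ'.1, hJ'⟩)⟩
      have hne : J₀.Nonempty := by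
        rw [Finset.nonempty_iff_ne_empty]
        rintro rfl
        have h1 := hJ₀.2
        rw [Finset.sdiff_empty] at h1
        omega
      obtain ⟨x, hx⟩ := hne
      refine ⟨x, hJ₀.1 hx, fun J hJ => ?_⟩
      by_contra hcon
      have hJI : J ⊆ I := hJ.trans (Finset.erase_subset _ _)
      have h1 := hI J hJI
      have h2 : tight J := ⟨hJI, by omega⟩
      have h3 := hmin _ (hinter J J₀ h2 hJ₀)
      have h4 : J ∩ J₀ ⊂ J₀ := by
        refine Finset.inter_subset_right.ssubset_of_ne fun h5 => ?_
        rw [← h5] at hx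
        exact Finset.notMem_erase x I (hJ (Finset.mem_inter.1 hx).1)
      exact absurd (Finset.card_lt_card h4) (by omega)
    · push Not at hex
      have h1 : I.Nonempty := Finset.card_pos.1 (by omega)
      obtain ⟨x, hx⟩ := h1
      refine ⟨x, hx, fun J hJ => ?_⟩
      have hJI : J ⊆ I := hJ.trans (Finset.erase_subset _ _)
      have h1 := hI J hJI
      have h2 : f J + (I \ J).card ≠ r := fun h => hex J ⟨hJI, h⟩
      omega
  have hcard : (I.erase x).card + 1 = I.card := Finset.card_erase_add_one hx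
  obtain ⟨E, hE, h1, h2⟩ := ih (I.erase x) (Finset.erase_ssubset hx) (by omega) (fun J hJ => by
    have h3 := hx' J hJ
    have h4 : ((I.erase x) \ J).card + 1 = (I \ J).card := by
      have h5 : (I.erase x) \ J = (I \ J).erase x := by
        ext y
        simp only [Finset.mem_sdiff, Finset.mem_erase]
        tauto
      rw [h5]
      refine Finset.card_erase_add_one (Finset.mem_sdiff.2 ⟨hx, fun h6 => ?_⟩)
      exact Finset.notMem_erase x I (hJ h6)
    omega)
  exact ⟨E, hE.trans (Finset.erase_subset _ _), h1, h2⟩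

end Pool.Agent.N164.RQ
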