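import Mathlib

/-!
# Rado's theorem on independent transversals
-/

set_option autoImplicit false

namespace Pool.Agent.N164.RQ

open Set

variable {α κ : Type}

/-- Rado's theorem, for finite families of finite sets. -/
theorem rado_aux [Fintype κ] (M : Matroid α) : ∀ (n : ℕ) (B : κ → Finset α),
    (∑ i, (B i).card = n) → (∀ J : Finset κ, (J.card : ℕ∞) ≤ M.eRk (⋃ i ∈ J, (B i : Set α))) →
      ∃ e : κ → α, (∀ i, e i ∈ B i) ∧ Function.Injective e ∧ M.Indep (range e) := by
  classical
  intro n
  induction n using Nat.strong_induction_on with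
  | _ n ih =>
  intro B hn hB
  by_cases h1 : ∀ i, (B i).card ≤ 1
  · have h2 : ∀ i, ∃ x, B i = {x} := by
      intro i
      have h3 := hB {i}
      rw [Finset.card_singleton] at h3
      have h4 : (⋃ j ∈ ({i} : Finset κ), (B j : Set α)) = B i := by simp
      rw [h4] at h3
      have h5 := h3.trans (M.eRk_le_encard _)
      rw [encard_coe_eq_coe_finsetCard] at h5
      have h6 : 1 ≤ (B i).card := by exact_mod_cast h5
      exact Finset.card_eq_one.1 (le_antisymm (h1 i) h6)
    choose e he using h2
    have h3 : (⋃ i ∈ (Finset.univ : Finset κ), (B i : Set α)) = range e := by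
      ext x
      simp [he, eq_comm]
    have h4 := hB Finset.univ
    rw [h3] at h4
    have h5 : (range e).encard ≤ (Finset.univ : Finset κ).card := by
      rw [← image_univ, ← encard_coe_eq_coe_finsetCard, Finset.coe_univ]
      exact encard_image_le _ _
    have hfin : (range e).Finite := finite_range e
    refine ⟨e, fun i => by rw [he]; exact Finset.mem_singleton_self _, ?_, ?_⟩
    · have h6 : (univ : Set κ).encard ≤ (e '' univ).encard := by
        rw [image_univ, ← Finset.coe_univ, encard_coe_eq_coe_finsetCard]
        exact h4.trans (M.eRk_le_encard _)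
      have h7 : InjOn e univ :=
        finite_univ.injOn_of_encard_image_eq (le_antisymm (encard_image_le _ _) h6)
      exact injOn_univ.1 h7
    · rw [Matroid.indep_iff_eRk_eq_encard_of_finite hfin]
      exact le_antisymm (M.eRk_le_encard _) (h5.trans h4)
  · push Not at h1
    obtain ⟨j, hj⟩ := h1
    obtain ⟨x, hx, y, hy, hxy⟩ := Finset.one_lt_card.1 hj
    -- the family with one element removed
    have key : ∀ z ∈ B j, (∃ e : κ → α, (∀ i, e i ∈ B i) ∧ Function.Injective e ∧
        M.Indep (range e)) ∨ ∃ J : Finset κ, j ∈ J ∧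
          M.eRk ((⋃ i ∈ J.erase j, (B i : Set α)) ∪ ((B j).erase z : Finset α)) < J.card := by
      intro z hz
      by_cases h2 : ∀ J : Finset κ, (J.card : ℕ∞) ≤
          M.eRk (⋃ i ∈ J, (Function.update B j ((B j).erase z) i : Set α))
      · left
        have h3 : ∑ i, (Function.update B j ((B j).erase z) i).card < n := by
          rw [← hn]
          apply Finset.sum_lt_sum
          · intro i _
            by_cases hij : i = j
            · subst hij
              rw [Function.update_self]
              exact Finset.card_le_card (Finset.erase_subset _ _)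
            · rw [Function.update_of_ne hij]
          · refine ⟨j, Finset.mem_univ _, ?_⟩
            rw [Function.update_self]
            exact Finset.card_lt_card (Finset.erase_ssubset hz)
        obtain ⟨e, he, h4, h5⟩ := ih _ h3 _ rfl h2
        refine ⟨e, fun i => ?_, h4, h5⟩
        have h6 := he i
        by_cases hij : i = j
        · subst hij
          rw [Function.update_self] at h6
          exact Finset.mem_of_mem_erase h6
        · rwa [Function.update_of_ne hij] at h6
      · right
        push Not at h2
        obtain ⟨J, hJ⟩ := h2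
        have hjJ : j ∈ J := by
          by_contra h3
          have h4 : (⋃ i ∈ J, (Function.update B j ((B j).erase z) i : Set α)) =
              ⋃ i ∈ J, (B i : Set α) := by
            refine iUnion₂_congr fun i hi => ?_
            rw [Function.update_of_ne]
            rintro rfl
            exact h3 hi
          rw [h4] at hJ
          exact absurd (hB J) (not_le.2 hJ)
        refine ⟨J, hjJ, ?_⟩
        have h4 : (⋃ i ∈ J, (Function.update B j ((B j).erase z) i : Set α)) =
            (⋃ i ∈ J.erase j, (B i : Set α)) ∪ ((B j).erase z : Finset α) := by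
          ext w
          simp only [mem_iUnion, mem_union, exists_prop]
          constructor
          · rintro ⟨i, hi, hw⟩
            by_cases hij : i = j
            · subst hij
              rw [Function.update_self] at hw
              exact Or.inr hw
            · rw [Function.update_of_ne hij] at hw
              exact Or.inl ⟨i, Finset.mem_erase.2 ⟨hij, hi⟩, hw⟩
          · rintro (⟨i, hi, hw⟩ | hw)
            · obtain ⟨hij, hi'⟩ := Finset.mem_erase.1 hi
              exact ⟨i, hi', by rwa [Function.update_of_ne hij]⟩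
            · exact ⟨j, hjJ, by rwa [Function.update_self]⟩
        rwa [h4] at hJ
    rcases key x hx with h2 | ⟨J, hjJ, hJ⟩
    · exact h2
    rcases key y hy with h2 | ⟨J', hjJ', hJ'⟩
    · exact h2
    exfalso
    set U : Set α := (⋃ i ∈ J.erase j, (B i : Set α)) ∪ ((B j).erase x : Finset α) with hU
    set V : Set α := (⋃ i ∈ J'.erase j, (B i : Set α)) ∪ ((B j).erase y : Finset α) with hV
    have h3 : (⋃ i ∈ (J ∪ J'), (B i : Set α)) ⊆ U ∪ V := by
      intro w hw
      simp only [mem_iUnion, exists_prop] at hw
      obtain ⟨i, hi, hw⟩ := hw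
      by_cases hij : i = j
      · subst hij
        by_cases hwx : w = x
        · right; right
          rw [hwx]
          exact Finset.mem_coe.2 (Finset.mem_erase.2 ⟨hxy, hx⟩)
        · left; right
          exact Finset.mem_coe.2 (Finset.mem_erase.2 ⟨hwx, hw⟩)
      · rcases Finset.mem_union.1 hi with h4 | h4
        · left; left
          exact mem_biUnion (Finset.mem_coe.2 (Finset.mem_erase.2 ⟨hij, h4⟩)) hw
        · right; left
          exact mem_biUnion (Finset.mem_coe.2 (Finset.mem_erase.2 ⟨hij, h4⟩)) hw
    have h4 : (⋃ i ∈ (J ∩ J').erase j, (B i : Set α)) ⊆ U ∩ V := by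
      intro w hw
      simp only [mem_iUnion, exists_prop] at hw
      obtain ⟨i, hi, hw⟩ := hw
      obtain ⟨hij, hi'⟩ := Finset.mem_erase.1 hi
      obtain ⟨h5, h6⟩ := Finset.mem_inter.1 hi'
      refine ⟨Or.inl ?_, Or.inl ?_⟩
      · exact mem_biUnion (Finset.mem_coe.2 (Finset.mem_erase.2 ⟨hij, h5⟩)) hw
      · exact mem_biUnion (Finset.mem_coe.2 (Finset.mem_erase.2 ⟨hij, h6⟩)) hw
    have h5 := (hB (J ∪ J')).trans (M.eRk_mono h3)
    have h6 := (hB ((J ∩ J').erase j)).trans (M.eRk_mono h4)
    have h7 := M.eRk_inter_add_eRk_union_le U V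
    have h8 : ((J ∩ J').erase j).card + 1 = (J ∩ J').card :=
      Finset.card_erase_add_one (Finset.mem_inter.2 ⟨hjJ, hjJ'⟩)
    have h9 := Finset.card_union_add_card_inter J J'
    obtain ⟨u, hu⟩ := ENat.ne_top_iff_exists.1 (ne_top_of_lt hJ)
    obtain ⟨v, hv⟩ := ENat.ne_top_iff_exists.1 (ne_top_of_lt hJ')
    rw [← hu] at hJ h7
    rw [← hv] at hJ' h7
    have h10 : ((((J ∩ J').erase j).card + (J ∪ J').card : ℕ) : ℕ∞) ≤ ((u + v : ℕ) : ℕ∞) := by
      push_cast
      exact (add_le_add h6 h5).trans h7
    have h11 : ((J ∩ J').erase j).card + (J ∪ J').card ≤ u + v := by exact_mod_cast h10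
    have h12 : u < J.card := by exact_mod_cast hJ
    have h13 : v < J'.card := by exact_mod_cast hJ'
    omega

/-- Rado's theorem with multiplicities: if the sets `A j`, `j ∈ J`, have together rank at least the
sum of the `c j`, `j ∈ J`, for all `J`, then there is an independent family with `c j` members in
`A j`. -/
theorem rado {ι : Type} [Fintype ι] (M : Matroid α) (A : ι → Set α)
    (hA : ∀ i, (A i).Finite) (c : ι → ℕ)
    (h : ∀ J : Finset ι, ((∑ j ∈ J, c j : ℕ) : ℕ∞) ≤ M.eRk (⋃ j ∈ J, A j)) :
    ∃ e : (Σ j, Fin (c j)) → α, (∀ s, e s ∈ A s.1) ∧ Function.Injective e ∧ M.Indep (range e) := by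
  classical
  obtain ⟨e, he, h1, h2⟩ := rado_aux (κ := Σ j, Fin (c j)) M _ (fun s => (hA s.1).toFinset) rfl (by
    intro J
    have h1 : J ⊆ (J.image Sigma.fst).sigma fun j => (Finset.univ : Finset (Fin (c j))) := by
      intro s hs
      exact Finset.mem_sigma.2 ⟨Finset.mem_image_of_mem _ hs, Finset.mem_univ _⟩
    have h2 : J.card ≤ ∑ j ∈ J.image Sigma.fst, c j := by
      refine (Finset.card_le_card h1).trans ?_
      rw [Finset.card_sigma]
      simp
    have h3 : (⋃ j ∈ J.image Sigma.fst, A j) ⊆
        ⋃ i ∈ J, (((hA i.1).toFinset : Finset α) : Set α) := by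
      intro w hw
      simp only [mem_iUnion, exists_prop] at hw
      obtain ⟨j, hj, hw⟩ := hw
      obtain ⟨s, hs, rfl⟩ := Finset.mem_image.1 hj
      refine mem_biUnion (Finset.mem_coe.2 hs) ?_
      rw [Finite.coe_toFinset]
      exact hw
    calc (J.card : ℕ∞) ≤ ((∑ j ∈ J.image Sigma.fst, c j : ℕ) : ℕ∞) := by exact_mod_cast h2
      _ ≤ _ := (h _).trans (M.eRk_mono h3))
  exact ⟨e, fun s => (Finite.mem_toFinset _).1 (he s), h1, h2⟩

end Pool.Agent.N164.RQ
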