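import Pool.Agent.N164.RQ.Glue
import Pool.Agent.N164.RQ.Rado

/-!
# Closed sets of large projections meet products of hypersurfaces
-/

set_option autoImplicit false

open MvPolynomial Set
open scoped LinearAlgebra.Projectivization
open Pool.Agent.N164.RP

namespace Pool.Agent.N164.RQ

variable {ι : Type} {N : ℕ}

/-- The value of a homogeneous polynomial at proportional vectors. -/
theorem aeval_smul_of_homogeneous {K : Subfield ℂ} {F : MvPolynomial (Fin (N + 1)) K} {D : ℕ}
    (hF : F.IsHomogeneous D) (c : ℂ) (v : Fin (N + 1) → ℂ) :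
    aeval (c • v) F = c ^ D * aeval v F := by
  rw [aeval_def, aeval_def, eval₂_eq', eval₂_eq', Finset.mul_sum]
  refine Finset.sum_congr rfl fun m hm => ?_
  have h1 : ∑ i, m i = D := by
    have h2 := hF (mem_support_iff.1 hm)
    simpa [Finsupp.weight_apply, Finsupp.sum_fintype] using h2
  simp only [Pi.smul_apply, smul_eq_mul, mul_pow, Finset.prod_mul_distrib,
    Finset.prod_pow_eq_pow_sum, h1]
  ring

/-- The quotients of the value of `F` and the powers of the homogeneous coordinates. -/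
def quots {K : Subfield ℂ} (F : MvPolynomial (Fin (N + 1)) K) (D : ℕ) (x : Pt N) : Set ℂ :=
  {c | ∃ j, x.rep j ≠ 0 ∧ c = aeval x.rep F / x.rep j ^ D}

theorem finite_quots {K : Subfield ℂ} (F : MvPolynomial (Fin (N + 1)) K) (D : ℕ) (x : Pt N) :
    (quots F D x).Finite := by
  refine (finite_range fun j => aeval x.rep F / x.rep j ^ D).subset ?_
  rintro c ⟨j, -, hc⟩
  exact ⟨j, hc.symm⟩

theorem E_subset_closure {K : Subfield ℂ} {F : MvPolynomial (Fin (N + 1)) K} {D : ℕ} (hD : 0 < D)
    {x : Pt N} (hx : aeval x.rep F ≠ 0) : E x ⊆ (M K).closure (quots F D x) := by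
  rintro _ ⟨⟨_, j⟩, rfl⟩
  rw [mem_closure_iff]
  change IsAlgebraic (ext K (quots F D x)) (x.rep j / x.rep (can x))
  have hc : x.rep (can x) ≠ 0 := rep_can x
  by_cases hj : x.rep j = 0
  · rw [hj, zero_div]
    exact isAlgebraic_zero
  · apply IsAlgebraic.of_pow hD
    have h1 : (aeval x.rep F / x.rep (can x) ^ D) / (aeval x.rep F / x.rep j ^ D) ∈
        ext K (quots F D x) :=
      div_mem (subset_ext _ _ ⟨_, hc, rfl⟩) (subset_ext _ _ ⟨_, hj, rfl⟩)
    have h2 : (x.rep j / x.rep (can x)) ^ D =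
        (aeval x.rep F / x.rep (can x) ^ D) / (aeval x.rep F / x.rep j ^ D) := by
      rw [div_pow]
      field_simp
    rw [h2]
    exact isAlgebraic_algebraMap (⟨_, h1⟩ : ext K (quots F D x))

/-- The point of a line with the affine coordinate `c`. -/
noncomputable def linePt (i₁ : Fin (N + 1)) (_h : i₁ ≠ 0) (c : ℂ) : Pt N :=
  Projectivization.mk ℂ (fun j => if j = 0 then 1 else if j = i₁ then c else 0) (by
    intro h0
    have := congrFun h0 0
    simp at this)

theorem isCoord_linePt (i₁ : Fin (N + 1)) (h : i₁ ≠ 0) (c : ℂ) :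
    IsCoord (fun j => if j = 0 then 1 else if j = i₁ then c else 0) (linePt i₁ h c) :=
  ⟨_, rfl⟩

/-- Points on lines with independent coordinates specialize to points with the coordinate zero. -/
theorem linePt_mem_Loc {κ : Type} [Finite κ] {K : Subfield ℂ} (i₁ : Fin (N + 1)) (h : i₁ ≠ 0)
    (c : κ → ℂ) (hc : AlgebraicIndependent K c) (c' : κ → ℂ) :
    (fun e => linePt i₁ h (c' e)) ∈ Loc K (fun e => linePt i₁ h (c e)) := by
  have hchart : ∀ c : κ → ℂ, InChart (fun _ => 0) (fun e => linePt i₁ h (c e)) := by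
    intro c e h0
    obtain ⟨b, hb, h1⟩ := isCoord_iff.1 (isCoord_linePt i₁ h (c e))
    have h2 := congrFun h1 0
    simp only [Pi.smul_apply, h0, smul_zero, if_true] at h2
    exact one_ne_zero h2
  have haff : ∀ c : κ → ℂ, ∀ s : κ × Fin (N + 1),
      affine (fun _ => 0) (fun e => linePt i₁ h (c e)) s =
        if s.2 = 0 then 1 else if s.2 = i₁ then c s.1 else 0 := by
    intro c s
    have h1 := affine_of_isCoord (a := fun _ => 0)
      (v := fun e j => if j = 0 then 1 else if j = i₁ then c e else 0)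
      (fun e => isCoord_linePt i₁ h (c e)) s
    rw [← h1]
    simp
  let G : PolyK K κ N →ₐ[K] MvPolynomial κ K :=
    aeval fun s => if s.2 = 0 then 1 else if s.2 = i₁ then X s.1 else 0
  have hG : ∀ (c : κ → ℂ) (P : PolyK K κ N),
      aeval (affine (fun _ => 0) (fun e => linePt i₁ h (c e))) P = aeval c (G P) := by
    intro c P
    have h1 : (aeval (affine (fun _ => 0) (fun e => linePt i₁ h (c e))) : PolyK K κ N →ₐ[K] ℂ) =
        (aeval c : MvPolynomial κ K →ₐ[K] ℂ).comp G := by
      apply MvPolynomial.algHom_ext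
      intro s
      rw [aeval_X, haff, AlgHom.comp_apply]
      simp only [G, aeval_X]
      split_ifs <;> simp
    rw [h1]
    rfl
  apply mem_Loc_of_aeval (hchart c) (hchart c')
  intro P hP
  rw [hG] at hP ⊢
  rw [algebraicIndependent_iff.1 hc _ hP, map_zero]

/-- Let `F e`, `e ∈ κ`, be homogeneous polynomials over `K`, and let `π e` be indices. If the rank of
the points `p (π e)`, `e ∈ J`, is at least `|J|` for all `J`, then there is a specialization `q` of
`p` such that `F e` vanishes at `q (π e)` for all `e`. -/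
theorem exists_meet [Fintype ι] [DecidableEq ι] (hN : 1 ≤ N) {κ : Type} [Fintype κ]
    {K : Subfield ℂ} {p : ι → Pt N} (π : κ → ι) (F : κ → MvPolynomial (Fin (N + 1)) K) (D : κ → ℕ)
    (hD : ∀ e, 0 < D e) (hF : ∀ e, (F e).IsHomogeneous (D e))
    (h : ∀ J : Finset κ, (J.card : ℕ∞) ≤ rk K (Es p (J.image π))) :
    ∃ q ∈ Loc K p, ∀ e, aeval (q (π e)).rep (F e) = 0 := by
  classical
  let κ' : Type := {e : κ // aeval (p (π e)).rep (F e) ≠ 0}
  have hne : ∀ e : κ', aeval (p (π e.1)).rep (F e.1) ≠ 0 := fun e => e.2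
  have _ : Fintype κ' := Fintype.ofFinite κ'
  -- the independent quotients
  obtain ⟨c, hc1, hc2, hc3⟩ := rado_aux (κ := κ') (M K) _
    (fun e => (finite_quots (F e.1) (D e.1) (p (π e.1))).toFinset) rfl (by
      intro J
      have h1 := h (J.map (Function.Embedding.subtype _))
      rw [Finset.card_map] at h1
      refine h1.trans (rk_le_of_subset_closure ?_)
      intro z hz
      simp only [Es, mem_iUnion, Finset.mem_image, Finset.mem_map, exists_prop] at hz
      obtain ⟨i, ⟨_, ⟨e, he, rfl⟩, rfl⟩, hz⟩ := hz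
      refine (M K).closure_subset_closure ?_ (E_subset_closure (hD e.1) (hne e) hz)
      intro w hw
      refine mem_biUnion he ?_
      rw [Set.Finite.coe_toFinset]
      exact hw)
  have hc1' : ∀ e, c e ∈ quots (F e.1) (D e.1) (p (π e.1)) := fun e => by
    have := hc1 e
    rwa [Set.Finite.mem_toFinset] at this
  choose j hj hcj using hc1'
  have hcind : AlgebraicIndependent K c := by
    have h1 : AlgebraicIndependent K (fun t : range c => (t : ℂ)) := hc3
    have h2 := h1.comp (fun e : κ' => (⟨c e, mem_range_self e⟩ : range c)) (by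
      intro e e' hee
      exact hc2 (congrArg Subtype.val hee))
    exact h2
  obtain ⟨i₁, hi₁⟩ : ∃ i₁ : Fin (N + 1), i₁ ≠ 0 :=
    ⟨⟨1, by omega⟩, fun h0 => by simpa using congrArg Fin.val h0⟩
  let P : ι ⊕ κ' → Pt N := Sum.elim p fun e => linePt i₁ hi₁ (c e)
  let Q : ι ⊕ κ' → Pt N := Sum.elim p fun _ => linePt i₁ hi₁ 0
  let S : Finset (ι ⊕ κ') := Finset.univ.map Function.Embedding.inr
  have hSmem : ∀ s : S, ∃ e : κ', (s : ι ⊕ κ') = Sum.inr e := by
    intro s
    obtain ⟨e, -, he⟩ := Finset.mem_map.1 s.2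
    exact ⟨e, he.symm⟩
  choose ε hε using hSmem
  have hS : LocS K S P Q := by
    have h1 := Loc_comp (linePt_mem_Loc (N := N) i₁ hi₁ c hcind fun _ => 0) ε (by
      intro s s' hss
      apply Subtype.ext
      rw [hε s, hε s', hss])
    have h2 : (fun s : S => Q s) = fun s : S => linePt i₁ hi₁ 0 := by
      funext s
      rw [hε s]
      rfl
    have h3 : (fun s : S => P s) = fun s : S => linePt i₁ hi₁ (c (ε s)) := by
      funext s
      rw [hε s]
      rfl
    rw [LocS, h2, h3]
    exact h1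
  obtain ⟨R, hR, hRS⟩ := hS.extend Finset.univ (Finset.subset_univ _)
  have hR' : R ∈ Loc K P := LocS_univ.1 hR
  have hRe : ∀ e : κ', R (Sum.inr e) = linePt i₁ hi₁ 0 := fun e =>
    hRS (Sum.inr e) (Finset.mem_map_of_mem _ (Finset.mem_univ e))
  have hq : (fun i => R (Sum.inl i)) ∈ Loc K p := Loc_comp hR' Sum.inl Sum.inl_injective
  refine ⟨fun i => R (Sum.inl i), hq, fun e => ?_⟩
  by_cases he : aeval (p (π e)).rep (F e) = 0
  · -- `F e` vanishes at `p (π e)`
    let Φ : PolyK K ι N := rename (fun t => (π e, t)) (F e)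
    have hΦ : ∀ v : ι → Fin (N + 1) → ℂ, eval (fun s => v s.1 s.2) (toC Φ) =
        aeval (v (π e)) (F e) := by
      intro v
      rw [eval_toC, aeval_rename]
      rfl
    have h1 : Vanishes (toC Φ) p := by
      intro v hv
      rw [hΦ]
      obtain ⟨b, -, hb⟩ := isCoord_iff.1 (hv (π e))
      rw [hb, aeval_smul_of_homogeneous (hF e), he, mul_zero]
    have h2 := hq Φ h1 (fun i => (R (Sum.inl i)).rep) (fun i => isCoord_rep _)
    exact (hΦ fun i => (R (Sum.inl i)).rep).symm.trans h2
  · let e' : κ' := ⟨e, he⟩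
    let Φ : PolyK K (ι ⊕ κ') N := rename (fun t => (Sum.inl (π e), t)) (F e) * X (Sum.inr e', 0) -
      X (Sum.inl (π e), j e') ^ D e * X (Sum.inr e', i₁)
    have hΦ : ∀ v : ι ⊕ κ' → Fin (N + 1) → ℂ, eval (fun s => v s.1 s.2) (toC Φ) =
        aeval (v (Sum.inl (π e))) (F e) * v (Sum.inr e') 0 -
          v (Sum.inl (π e)) (j e') ^ D e * v (Sum.inr e') i₁ := by
      intro v
      rw [eval_toC, map_sub, map_mul, map_mul, map_pow, aeval_rename, aeval_X, aeval_X, aeval_X]
      rfl
    have h1 : Vanishes (toC Φ) P := by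
      intro v hv
      rw [hΦ]
      obtain ⟨b, -, hb⟩ := isCoord_iff.1 (hv (Sum.inl (π e)))
      obtain ⟨b', -, hb'⟩ := isCoord_iff.1 (hv (Sum.inr e'))
      obtain ⟨b'', hb'', hb3⟩ := isCoord_iff.1 (isCoord_linePt i₁ hi₁ (c e'))
      have h2 : v (Sum.inl (π e)) = b • (p (π e)).rep := hb
      have h3 : v (Sum.inr e') = b' • (linePt i₁ hi₁ (c e')).rep := hb'
      have h4 := congrFun hb3 0
      have h5 := congrFun hb3 i₁
      simp only [if_true, if_neg hi₁, Pi.smul_apply, smul_eq_mul] at h4 h5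
      have h6 : c e' = aeval (p (π e)).rep (F e) / (p (π e)).rep (j e') ^ D e := hcj e'
      have h7 : (p (π e)).rep (j e') ≠ 0 := hj e'
      have h8 : (p (π e)).rep (j e') ^ D e * c e' = aeval (p (π e)).rep (F e) := by
        rw [h6]
        field_simp
      rw [h2, aeval_smul_of_homogeneous (hF e), h3]
      simp only [Pi.smul_apply, smul_eq_mul, mul_pow]
      have h9 : (linePt i₁ hi₁ (c e')).rep i₁ = c e' * (linePt i₁ hi₁ (c e')).rep 0 := by
        have h10 : b'' ≠ 0 := hb''
        apply mul_left_cancel₀ h10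
        rw [← h5, mul_comm (c e'), ← mul_assoc, ← h4, one_mul]
      rw [h9, ← h8]
      ring
    let V : ι ⊕ κ' → Fin (N + 1) → ℂ := Sum.elim (fun i => (R (Sum.inl i)).rep)
      (fun _ t => if t = 0 then 1 else if t = i₁ then 0 else 0)
    have hV : ∀ s, IsCoord (V s) (R s) := by
      rintro (i | e)
      · exact isCoord_rep _
      · have h3 := isCoord_linePt (N := N) i₁ hi₁ 0
        rw [← hRe e] at h3
        exact h3
    have h4 := (hΦ V).symm.trans (hR' Φ h1 V hV)
    have h5 : V (Sum.inr e') 0 = 1 := by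
      change (if (0 : Fin (N + 1)) = 0 then (1 : ℂ) else if (0 : Fin (N + 1)) = i₁ then 0 else 0) = 1
      rw [if_pos rfl]
    have h6 : V (Sum.inr e') i₁ = 0 := by
      change (if i₁ = 0 then (1 : ℂ) else if i₁ = i₁ then 0 else 0) = 0
      rw [if_neg hi₁, if_pos rfl]
    rw [h5, h6, mul_one, mul_zero, sub_zero] at h4
    exact h4

end Pool.Agent.N164.RQ
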