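import Pool.Agent.N164.RP.Final
import Pool.Agent.N164.RQ.Meet
import Pool.Agent.N164.RQ.Defect

/-!
# Relations between points meet products of hypersurface sections
-/

set_option autoImplicit false

open MvPolynomial Set
open scoped LinearAlgebra.Projectivization
open Pool.Agent.N164.RP

namespace Pool.Agent.N164.RQ

variable {N : ℕ}

theorem Es_mono {ι : Type} (p : ι → Pt N) {S T : Finset ι} (h : S ⊆ T) : Es p S ⊆ Es p T :=
  biUnion_subset_biUnion_left h

theorem rk_Es_ne_top {ι : Type} (K : Subfield ℂ) (p : ι → Pt N) (S : Finset ι) :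
    rk K (Es p S) ≠ ⊤ :=
  ne_top_of_le_ne_top (finite_Es p S).encard_lt_top.ne (rk_le_encard K _)

theorem coe_toNat_rk {ι : Type} (K : Subfield ℂ) (p : ι → Pt N) (S : Finset ι) :
    ((rk K (Es p S)).toNat : ℕ∞) = rk K (Es p S) :=
  ENat.natCast_toNat (rk_Es_ne_top K p S)

theorem isHomogeneous_of_map {K : Subfield ℂ} {σ : Type} {F : MvPolynomial σ K} {D : ℕ}
    (h : (MvPolynomial.map (algebraMap K ℂ) F).IsHomogeneous D) : F.IsHomogeneous D := by
  intro m hm
  apply h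
  rw [coeff_map]
  intro h0
  apply hm
  exact (algebraMap K ℂ).injective (h0.trans (map_zero _).symm)

/-- The submodular function. -/
noncomputable def projRank {m n : ℕ} (K : Subfield ℂ) (p : Fin m → Pt N)
    (J : Finset (Fin m × Fin n)) : ℕ := (rk K (Es p (J.image Prod.fst))).toNat

theorem projRank_submod {m n : ℕ} (K : Subfield ℂ) (p : Fin m → Pt N)
    (A B : Finset (Fin m × Fin n)) :
    projRank K p (A ∪ B) + projRank K p (A ∩ B) ≤ projRank K p A + projRank K p B := by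
  have h1 := rk_Es_submod K p (A.image Prod.fst) (B.image Prod.fst)
  have h2 : rk K (Es p ((A ∩ B).image Prod.fst)) ≤
      rk K (Es p (A.image Prod.fst ∩ B.image Prod.fst)) :=
    rk_mono (Es_mono p (Finset.image_inter_subset _ _ _))
  rw [← Finset.image_union] at h1
  have h3 := (add_le_add_right h2 (rk K (Es p ((A ∪ B).image Prod.fst)))).trans h1
  rw [← coe_toNat_rk K p ((A ∪ B).image Prod.fst), ← coe_toNat_rk K p ((A ∩ B).image Prod.fst),
    ← coe_toNat_rk K p (A.image Prod.fst), ← coe_toNat_rk K p (B.image Prod.fst)] at h3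
  exact_mod_cast h3

theorem projRank_empty {m n : ℕ} (K : Subfield ℂ) (p : Fin m → Pt N) :
    projRank K p (∅ : Finset (Fin m × Fin n)) = 0 := by
  have h3 : rk K (Es p ((∅ : Finset (Fin m × Fin n)).image Prod.fst)) ≤ 0 := by
    refine (rk_le_encard K _).trans ?_
    simp [Es]
  rw [projRank, nonpos_iff_eq_zero.1 h3]
  rfl

/-- The choice of the conditions. -/
theorem exists_conditions {m n r : ℕ} (K : Subfield ℂ) (p : Fin m → Pt N)
    (hproj : ∀ S : Finset (Fin m), r ≤ (rk K (Es p S)).toNat + Sᶜ.card * n) :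
    ∃ E : Finset (Fin m × Fin n), E.card = r ∧ ∀ J ⊆ E, J.card ≤ projRank K p J := by
  have hbound : ∀ J ⊆ (Finset.univ : Finset (Fin m × Fin n)),
      r ≤ projRank K p J + (Finset.univ \ J).card := by
    intro J _
    refine (hproj (J.image Prod.fst)).trans (Nat.add_le_add_left ?_ _)
    have h1 : (J.image Prod.fst)ᶜ ×ˢ (Finset.univ : Finset (Fin n)) ⊆ Finset.univ \ J := by
      rintro ⟨i, j⟩ hij
      rw [Finset.mem_product, Finset.mem_compl] at hij
      rw [Finset.mem_sdiff]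
      exact ⟨Finset.mem_univ _, fun h => hij.1 (Finset.mem_image_of_mem Prod.fst h)⟩
    have h2 := Finset.card_le_card h1
    rw [Finset.card_product, Finset.card_univ, Fintype.card_fin] at h2
    exact h2
  have hr : r ≤ (Finset.univ : Finset (Fin m × Fin n)).card := by
    have h1 := hbound ∅ (Finset.empty_subset _)
    rw [projRank_empty, zero_add, Finset.sdiff_empty] at h1
    exact h1
  obtain ⟨E, -, hE, hE2⟩ := exists_defect (projRank K p) (projRank_submod K p) r Finset.univ hr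
    hbound
  exact ⟨E, hE, hE2⟩

/-- The point. -/
theorem exists_meet_conditions {m n : ℕ} (hN : 1 ≤ N) {K : Subfield ℂ} {p : Fin m → Pt N}
    (Q : Fin m × Fin n → MvPolynomial (Fin (N + 1)) K) (D : Fin m × Fin n → ℕ)
    (hD : ∀ e, 0 < D e) (hQ : ∀ e, (Q e).IsHomogeneous (D e)) (E : Finset (Fin m × Fin n))
    (hE : ∀ J ⊆ E, J.card ≤ projRank K p J) :
    ∃ q ∈ Loc K p, ∀ e ∈ E, aeval (q e.1).rep (Q e) = 0 := by
  obtain ⟨q, hq, hqF⟩ := exists_meet (K := K) (p := p) hN (κ := E)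
    (fun e => (e : Fin m × Fin n).1) (fun e => Q e) (fun e => D e) (fun e => hD e)
    (fun e => hQ e) (by
      intro J
      have h1 := hE (J.map (Function.Embedding.subtype _)) (by
        intro e he
        obtain ⟨e', -, rfl⟩ := Finset.mem_map.1 he
        exact e'.2)
      rw [Finset.card_map, projRank] at h1
      have h2 : (J.map (Function.Embedding.subtype _)).image Prod.fst =
          J.image fun e : E => (e : Fin m × Fin n).1 := by
        ext i
        simp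
      have h3 : (J.card : ℕ∞) ≤ ((rk K (Es p ((J.map (Function.Embedding.subtype _)).image
          Prod.fst))).toNat : ℕ∞) := by
        exact_mod_cast h1
      rw [coe_toNat_rk, h2] at h3
      exact h3)
  exact ⟨q, hq, fun e he => hqF ⟨e, he⟩⟩

/-- The second alternative. -/
theorem exists_point_on_hypersurfaces {m d r : ℕ} (hd : 2 ≤ d) {X : Set (Pt N)}
    (hX : IsVariety X d) {Z : Set (Fin m → Pt N)} (hZ : IsClosedSet Z)
    (hZX : ∀ p ∈ Z, ∀ i, p i ∈ X) (hdim : DimGE Z r) {G : Type} [AddCommGroup G] (f : Pt N → G)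
    (a : Fin m → ℤ) (H : AddSubgroup G)
    (hrel : ∀ p ∈ Z, ∀ q ∈ Z, ∑ i, a i • (f (p i) - f (q i)) ∈ H)
    (hno : ∀ C, GoodCurve X C → ∀ i, ¬ ∀ x ∈ X, ∀ y ∈ X,
      a i • (f x - f y) ∈ H ⊔ AddSubgroup.closure (f '' C))
    (F : Fin m × Fin (d - 1) → MvPolynomial (Fin (N + 1)) ℂ) (D : Fin m × Fin (d - 1) → ℕ)
    (hF : ∀ e, 0 < D e ∧ (F e).IsHomogeneous (D e)) :
    ∃ p ∈ Z, ∃ E : Finset (Fin m × Fin (d - 1)), E.card = r ∧ ∀ e ∈ E, ∀ v,
      IsCoord v (p e.1) → eval v (F e) = 0 := by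
  obtain ⟨T₁, hT₁, h₁⟩ := closed_over hX.closed
  obtain ⟨T₂, hT₂, h₂⟩ := rel_over hX.dim_lt
  obtain ⟨T₃, hT₃, h₃⟩ := closed_over hZ
  obtain ⟨K, hcK, hsub⟩ : ∃ K : Subfield ℂ, Countable K ∧
      T₁ ∪ T₂ ∪ T₃ ∪ (⋃ e, ((F e).coeffs : Set ℂ)) ⊆ (K : Set ℂ) := by
    refine ⟨Subfield.closure (T₁ ∪ T₂ ∪ T₃ ∪ (⋃ e, ((F e).coeffs : Set ℂ))), ?_,
      Subfield.subset_closure⟩
    rw [← Cardinal.mk_le_aleph0_iff]
    refine (Subfield.cardinalMk_closure_le_max _).trans ?_
    rw [max_le_iff]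
    refine ⟨?_, le_rfl⟩
    rw [Cardinal.le_aleph0_iff_set_countable]
    exact ((hT₁.union hT₂).union hT₃).union (countable_iUnion fun e => (F e).coeffs.countable_toSet)
  have hbase : Base X d K :=
    ⟨h₁ K (fun t ht => hsub (Or.inl (Or.inl (Or.inl ht)))),
      h₂ K (fun t ht => hsub (Or.inl (Or.inl (Or.inr ht))))⟩
  obtain ⟨S, hS⟩ := h₃ K (fun t ht => hsub (Or.inl (Or.inr ht)))
  have hFK : ∀ e, ∃ Q : MvPolynomial (Fin (N + 1)) K, MvPolynomial.map (algebraMap K ℂ) Q = F e :=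
    fun e => exists_descent (F e) (fun t ht => hsub (Or.inr (mem_iUnion.2 ⟨e, ht⟩)))
  choose Q hQ using hFK
  have hQhom : ∀ e, (Q e).IsHomogeneous (D e) := fun e => by
    apply isHomogeneous_of_map
    rw [hQ]
    exact (hF e).2
  obtain ⟨p, hpZ, hrk⟩ := exists_point hS hdim
  have hloc : ∀ q ∈ Loc K p, q ∈ Z := by
    intro q hq
    rw [hS] at hpZ ⊢
    intro F hF
    exact hq F (hpZ F hF)
  have hfib := rk_fibre_le f (by omega) hX.irreducible a hbase H p (hZX p hpZ)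
    (fun q hq q' hq' => hrel q (hloc q hq) q' (hloc q' hq')) hno
  -- the bound for the projections
  have hproj : ∀ S : Finset (Fin m), r ≤ (rk K (Es p S)).toNat + Sᶜ.card * (d - 1) := by
    intro S
    have h1 := rk_union_le K (Es p S) (Es p Sᶜ)
    rw [← Es_union, Finset.union_compl, Es_univ] at h1
    have h2 := hrk.trans (h1.trans (add_le_add_right (hfib S) _))
    rw [← coe_toNat_rk K p S] at h2
    exact_mod_cast h2
  obtain ⟨E, hE, hE2⟩ := exists_conditions K p hproj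
  have hN : 1 ≤ N := by
    obtain ⟨b, s, hs, -⟩ := hX.dim_ge
    have h1 := s.card_le_univ
    rw [Fintype.card_prod, Fintype.card_fin, Fintype.card_unit, hs] at h1
    omega
  obtain ⟨q, hq, hqF⟩ := exists_meet_conditions hN Q D (fun e => (hF e).1) hQhom E hE2
  refine ⟨q, hloc q hq, E, hE, fun e he v hv => ?_⟩
  obtain ⟨b, -, hb⟩ := isCoord_iff.1 hv
  rw [← hQ e, eval_map, ← aeval_def, hb, aeval_smul_of_homogeneous (hQhom e), hqF e he, mul_zero]

/-- The theorem, for all subgroups `R` of the group of zero-cycles. -/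
theorem main3 {d m r : ℕ} (hd : 2 ≤ d) {X : Set (Pt N)} (hX : IsVariety X d)
    {Z : Set (Fin m → Pt N)} (hZ : IsClosedSet Z) (hZX : ∀ p ∈ Z, ∀ i, p i ∈ X)
    (hdim : DimGE Z r) (a : Fin m → ℤ) (ha : ∀ i, a i ≠ 0) (R : AddSubgroup (Cycle N))
    (hrel : ∀ p ∈ Z, ∀ q ∈ Z, ∑ i, a i • (pt (p i) - pt (q i)) ∈ R) :
    (∃ C ⊆ X, IsClosedSet (one C) ∧ ¬ DimGE (one C) 2 ∧
      ∃ n : ℕ, n ≠ 0 ∧ ((∀ i, a i = 1 ∨ a i = -1) → n = 1) ∧
        ∀ z : Cycle N, IsOn z X → ∃ w : Cycle N, IsOn w C ∧ n • z - w ∈ R) ∨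
    ∀ (F : Fin m × Fin (d - 1) → MvPolynomial (Fin (N + 1)) ℂ) (D : Fin m × Fin (d - 1) → ℕ),
      (∀ e, 0 < D e ∧ (F e).IsHomogeneous (D e)) →
        ∃ p ∈ Z, ∃ E : Finset (Fin m × Fin (d - 1)), E.card = r ∧ ∀ e ∈ E, ∀ v,
          IsCoord v (p e.1) → eval v (F e) = 0 := by
  classical
  by_cases hex : ∃ C, GoodCurve X C ∧ ∃ i, ∀ x ∈ X, ∀ y ∈ X,
      a i • ((pt x : Cycle N) - pt y) ∈ R ⊔ AddSubgroup.closure (pt '' C)
  · left
    obtain ⟨C₁, hC₁, i, hi⟩ := hex
    obtain ⟨T₁, hT₁, h₁⟩ := closed_over hX.closed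
    obtain ⟨T₂, hT₂, h₂⟩ := rel_over hX.dim_lt
    have hbase : Base X d ⊤ := ⟨h₁ ⊤ (fun t _ => Subfield.mem_top t),
      h₂ ⊤ (fun t _ => Subfield.mem_top t)⟩
    obtain ⟨x₀, hx₀⟩ := hX.nonempty
    have hC₂ : GoodCurve X {y | (fun _ : Unit => y) ∈ Loc ⊤ (fun _ : Unit => x₀)} :=
      GoodCurve.loc hbase hx₀ (rk_top _)
    obtain ⟨C, hC, hC1C, hx₀C⟩ : ∃ C, GoodCurve X C ∧ C₁ ⊆ C ∧ x₀ ∈ C :=
      ⟨_, hC₁.union hC₂, Set.subset_union_left, Or.inr (self_mem_Loc _ _)⟩
    refine ⟨C, hC.subset, hC.closed, hC.dim, (a i).natAbs, Int.natAbs_ne_zero.2 (ha i), ?_, ?_⟩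
    · intro h
      rcases h i with h1 | h1 <;> rw [h1] <;> rfl
    · intro z hz
      have hle : R ⊔ AddSubgroup.closure (pt '' C₁) ≤ R ⊔ AddSubgroup.closure (pt '' C) :=
        sup_le_sup_left (AddSubgroup.closure_mono (Set.image_mono hC1C)) R
      have hmem : ∀ x ∈ X, a i • pt x ∈ R ⊔ AddSubgroup.closure (pt '' C) := by
        intro x hx
        have h2 : a i • (pt x - pt x₀) ∈ R ⊔ AddSubgroup.closure (pt '' C) :=
          hle (hi x hx x₀ hx₀)
        have h3 : a i • pt x₀ ∈ R ⊔ AddSubgroup.closure (pt '' C) :=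
          AddSubgroup.mem_sup_right (AddSubgroup.zsmul_mem _
            (AddSubgroup.subset_closure (Set.mem_image_of_mem _ hx₀C)) _)
        have h4 : a i • pt x = a i • (pt x - pt x₀) + a i • pt x₀ := by
          rw [smul_sub, sub_add_cancel]
        rw [h4]
        exact AddSubgroup.add_mem _ h2 h3
      have h1 : a i • z ∈ R ⊔ AddSubgroup.closure (pt '' C) := mem_of_isOn hmem hz
      have h2 : (a i).natAbs • z ∈ R ⊔ AddSubgroup.closure (pt '' C) := by
        rcases Int.natAbs_eq (a i) with h3 | h3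
        · rw [h3] at h1
          rwa [natCast_zsmul] at h1
        · rw [h3, neg_smul, natCast_zsmul] at h1
          exact (AddSubgroup.neg_mem_iff _).1 h1
      obtain ⟨s, hs, w, hw, hsw⟩ := AddSubgroup.mem_sup.1 h2
      refine ⟨w, isOn_of_mem_closure hw, ?_⟩
      rw [← hsw, add_sub_cancel_right]
      exact hs
  · right
    intro F D hF
    refine exists_point_on_hypersurfaces hd hX hZ hZX hdim (pt : Pt N → Cycle N) a R hrel ?_ F D hF
    intro C hC i h
    exact hex ⟨C, hC, i, h⟩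

end Pool.Agent.N164.RQ
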