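import Pool.Agent.N164.RQ.Sub
import Mathlib.Combinatorics.Matroid.Rank.ENat

/-!
# Specializations over the field of a part of the tuple, and the ranks of the fibres
-/

set_option autoImplicit false

open MvPolynomial Set
open scoped LinearAlgebra.Projectivization
open Pool.Agent.N164.RP

namespace Pool.Agent.N164.RQ

variable {ι : Type} {N : ℕ}

/-- If the part of `q` outside of `S` is a specialization of that of `p` over the field of the
coordinates of the `p i`, `i ∈ S`, and `q i = p i` for `i ∈ S`, then `q` is a specialization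
of `p`. -/
theorem LocS.glue [Fintype ι] [DecidableEq ι] {K : Subfield ℂ} {S : Finset ι} {p q : ι → Pt N}
    (h : LocS (RP.ext K (Es p S)) Sᶜ p q) (hS : ∀ i ∈ S, q i = p i) : q ∈ Loc K p := by
  classical
  obtain ⟨a, hqa⟩ := exists_chart q
  have hpT : InChart (fun i : (Sᶜ : Finset ι) => a i) (fun i : (Sᶜ : Finset ι) => p i) :=
    inChart_of_mem_Loc h (fun i => hqa i)
  have hpa : InChart a p := by
    intro i
    by_cases hi : i ∈ S
    · rw [← hS i hi]
      exact hqa i
    · exact hpT ⟨i, Finset.mem_compl.2 hi⟩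
  have hmem : ∀ (i : ι) (hi : i ∈ S) (j : Fin (N + 1)),
      affine a p (i, j) ∈ RP.ext K (Es p S) := by
    intro i hi j
    have h1 := affine_mem_ext K (fun i : S => a i) (fun i : S => p i) (⟨i, hi⟩, j)
    rw [Et_restrict] at h1
    exact h1
  let g : ι × Fin (N + 1) → PolyK (RP.ext K (Es p S)) (Sᶜ : Finset ι) N := fun s =>
    if hs : s.1 ∈ S then C ⟨_, hmem s.1 hs s.2⟩ else X (⟨s.1, Finset.mem_compl.2 hs⟩, s.2)
  let G : PolyK K ι N →+* PolyK (RP.ext K (Es p S)) (Sᶜ : Finset ι) N :=
    eval₂Hom (C.comp (Subfield.inclusion (le_ext K (Es p S)))) g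
  have hG : ∀ z : ι → Pt N, (∀ i ∈ S, z i = p i) → ∀ P : PolyK K ι N,
      aeval (affine (fun i : (Sᶜ : Finset ι) => a i) (fun i : (Sᶜ : Finset ι) => z i)) (G P) =
        aeval (affine a z) P := by
    intro z hz P
    have h1 : ((aeval (affine (fun i : (Sᶜ : Finset ι) => a i)
        (fun i : (Sᶜ : Finset ι) => z i)) :
        PolyK (RP.ext K (Es p S)) (Sᶜ : Finset ι) N →ₐ[RP.ext K (Es p S)] ℂ).toRingHom).comp G =
        (aeval (affine a z) : PolyK K ι N →ₐ[K] ℂ).toRingHom := by
      apply MvPolynomial.ringHom_ext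
      · intro k
        have h2 : G (C k) = C (Subfield.inclusion (le_ext K (Es p S)) k) := eval₂_C _ _ _
        change aeval _ (G (C k)) = aeval _ (C k)
        rw [h2, aeval_C, aeval_C]
        rfl
      · rintro ⟨i, j⟩
        have h2 : G (X (i, j)) = g (i, j) := eval₂_X _ _ _
        change aeval _ (G (X (i, j))) = aeval _ (X (i, j))
        rw [h2, aeval_X]
        by_cases hi : i ∈ S
        · have h3 : g (i, j) = C ⟨_, hmem i hi j⟩ := dif_pos hi
          rw [h3, aeval_C]
          change affine a p (i, j) = affine a z (i, j)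
          simp only [affine]
          rw [hz i hi]
        · have h3 : g (i, j) = X (⟨i, Finset.mem_compl.2 hi⟩, j) := dif_neg hi
          rw [h3, aeval_X]
          rfl
    exact congrArg (fun g : PolyK K ι N →+* ℂ => g P) h1
  apply mem_Loc_of_aeval hpa hqa
  intro P hP
  rw [← hG p (fun _ _ => rfl)] at hP
  rw [← hG q hS]
  exact aeval_of_mem_Loc h (fun i => hqa i) _ hP

/-- The rank of the coordinates is submodular. -/
theorem rk_Es_submod [DecidableEq ι] (K : Subfield ℂ) (p : ι → Pt N) (S T : Finset ι) :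
    rk K (Es p (S ∪ T)) + rk K (Es p (S ∩ T)) ≤ rk K (Es p S) + rk K (Es p T) := by
  have h1 : Es p (S ∩ T) ⊆ Es p S ∩ Es p T := by
    intro z hz
    simp only [Es, mem_iUnion, Finset.mem_inter, exists_prop] at hz
    obtain ⟨i, ⟨hi, hi'⟩, hz⟩ := hz
    exact ⟨mem_biUnion hi hz, mem_biUnion hi' hz⟩
  rw [Es_union, add_comm]
  exact (add_le_add_left (rk_mono h1) _).trans ((M K).eRk_submod (Es p S) (Es p T))

/-- The rank of the part of `p` outside of `S`, over the field of the `p i`, `i ∈ S`, if no multiple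
of the group of the zero-cycles is supported on a curve. -/
theorem rk_fibre_le {m : ℕ} {G : Type} [AddCommGroup G] (f : Pt N → G) {X : Set (Pt N)} {d : ℕ}
    (hd : 1 ≤ d) (hirr : ∀ F G : Poly Unit N, VanishesOn (F * G) (one X) →
      VanishesOn F (one X) ∨ VanishesOn G (one X))
    (a : Fin m → ℤ) {K : Subfield ℂ} (hK : Base X d K) (H : AddSubgroup G) (p : Fin m → Pt N)
    (hpX : ∀ i, p i ∈ X)
    (hH : ∀ q ∈ Loc K p, ∀ q' ∈ Loc K p, ∑ i, a i • (f (q i) - f (q' i)) ∈ H)
    (hno : ∀ C, GoodCurve X C → ∀ i, ¬ ∀ x ∈ X, ∀ y ∈ X,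
      a i • (f x - f y) ∈ H ⊔ AddSubgroup.closure (f '' C)) (S : Finset (Fin m)) :
    rk (ext K (Es p S)) (Es p Sᶜ) ≤ ((Sᶜ.card * (d - 1) : ℕ) : ℕ∞) := by
  classical
  by_contra hcon
  rw [not_le] at hcon
  have hcon' : ((Sᶜ.card * (d - 1) + 1 : ℕ) : ℕ∞) ≤ rk (ext K (Es p S)) (Es p Sᶜ) := by
    have := Order.add_one_le_of_lt hcon
    exact_mod_cast this
  let ε : (Sᶜ : Finset (Fin m)) ≃ Fin Sᶜ.card := Finset.equivFin _
  let p' : Fin Sᶜ.card → Pt N := fun j => p (ε.symm j)
  have hEt : Et p' = Es p Sᶜ := by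
    rw [← Et_restrict]
    ext z
    simp only [Et, mem_iUnion]
    constructor
    · rintro ⟨j, hj⟩
      exact ⟨ε.symm j, hj⟩
    · rintro ⟨i, hi⟩
      refine ⟨ε i, ?_⟩
      change z ∈ E (p (ε.symm (ε i)))
      rw [Equiv.symm_apply_apply]
      exact hi
  -- the extension of a specialization by `p`
  let ex : (Fin Sᶜ.card → Pt N) → Fin m → Pt N := fun q i =>
    if hi : i ∈ (Sᶜ : Finset (Fin m)) then q (ε ⟨i, hi⟩) else p i
  have hex : ∀ q ∈ Loc (ext K (Es p S)) p', ex q ∈ Loc K p := by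
    intro q hq
    apply LocS.glue (S := S)
    · have h1 := Loc_comp hq (fun i : (Sᶜ : Finset (Fin m)) => ε i) ε.injective
      have h2 : (fun i : (Sᶜ : Finset (Fin m)) => p' (ε i)) =
          fun i : (Sᶜ : Finset (Fin m)) => p i := by
        funext i
        change p (ε.symm (ε i)) = p i
        rw [Equiv.symm_apply_apply]
      have h3 : (fun i : (Sᶜ : Finset (Fin m)) => ex q i) =
          fun i : (Sᶜ : Finset (Fin m)) => q (ε i) := by
        funext i
        exact dif_pos i.2
      rw [LocS, h3, ← h2]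
      exact h1
    · intro i hi
      exact dif_neg (by rw [Finset.mem_compl, not_not]; exact hi)
  have hsum : ∀ q q' : Fin Sᶜ.card → Pt N, ∑ i, a i • (f (ex q i) - f (ex q' i)) =
      ∑ j, a (ε.symm j) • (f (q j) - f (q' j)) := by
    intro q q'
    rw [← Finset.sum_compl_add_sum S]
    have h1 : ∑ i ∈ S, a i • (f (ex q i) - f (ex q' i)) = 0 := by
      refine Finset.sum_eq_zero fun i hi => ?_
      have h2 : ∀ q, ex q i = p i := fun q =>
        dif_neg (by rw [Finset.mem_compl, not_not]; exact hi)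
      rw [h2, h2, sub_self, smul_zero]
    rw [h1, add_zero, ← Finset.sum_coe_sort]
    refine Fintype.sum_equiv ε _ _ fun i => ?_
    have h2 : ∀ q, ex q i = q (ε i) := fun q => dif_pos i.2
    rw [h2, h2, Equiv.symm_apply_apply]
  obtain ⟨C, hC, j, hj⟩ := main_induction f hd hirr Sᶜ.card (fun j => a (ε.symm j))
    (ext K (Es p S)) (hK.mono (le_ext _ _)) H p' (fun j => hpX _) (by rw [hEt]; exact hcon')
    (fun q hq q' hq' => by
      rw [← hsum]
      exact hH _ (hex q hq) _ (hex q' hq'))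
  exact hno C hC _ hj

end Pool.Agent.N164.RQ
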