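import Pool.Agent.N164.RP.Gen
import Pool.Agent.N164.RQ.Rado

/-!
# More on ranks; specializations over a field generated by independent elements
-/

set_option autoImplicit false

open MvPolynomial Set
open scoped LinearAlgebra.Projectivization
open Pool.Agent.N164.RP

namespace Pool.Agent.N164.RQ

theorem rk_ext_le (K : Subfield ℂ) (h s : Set ℂ) : rk (ext K h) s ≤ rk K s := by
  obtain ⟨t, ht⟩ := (M K).exists_isBasis s
  have h1 : s ⊆ (M (ext K h)).closure t := by
    rw [closure_ext]
    exact ht.subset_closure.trans ((M K).closure_subset_closure subset_union_right)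
  refine (rk_le_of_subset_closure h1).trans ((rk_le_encard _ _).trans ?_)
  rw [ht.encard_eq_eRk]
  rfl

theorem rk_ext_mono {K : Subfield ℂ} {h h' s : Set ℂ} (hh : h ⊆ h') :
    rk (ext K h') s ≤ rk (ext K h) s := by
  have h1 : ext K h' = ext (ext K h) h' := by
    rw [ext_ext, union_eq_self_of_subset_left hh]
  rw [h1]
  exact rk_ext_le _ _ _

theorem rk_ext_add_encard {K : Subfield ℂ} {B s : Set ℂ} (hB : (M K).Indep B) (hBs : B ⊆ s) :
    rk (ext K B) s + B.encard ≤ rk K s := by
  obtain ⟨I, hI, hBI⟩ := hB.subset_isBasis_of_subset hBs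
  have h1 : s ⊆ (M (ext K B)).closure (I \ B) := by
    rw [closure_ext, union_sdiff_self, union_eq_self_of_subset_left hBI]
    exact hI.subset_closure
  have h2 : rk (ext K B) s ≤ (I \ B).encard :=
    (rk_le_of_subset_closure h1).trans (rk_le_encard _ _)
  calc rk (ext K B) s + B.encard ≤ (I \ B).encard + B.encard := by gcongr
    _ = I.encard := encard_sdiff_add_encard_of_subset hBI
    _ = rk K s := hI.encard_eq_eRk

theorem indep_of_ext {K : Subfield ℂ} {h B : Set ℂ} (hB : (M (ext K h)).Indep B)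
    (hfin : B.Finite) : (M K).Indep B := by
  rw [Matroid.indep_iff_eRk_eq_encard_of_finite hfin] at hB ⊢
  refine le_antisymm ((M K).eRk_le_encard _) ?_
  rw [← hB]
  exact rk_ext_le K h B

/-- The elements of the field generated by the family `e` over `K` are quotients of polynomials. -/
theorem exists_quotient {K : Subfield ℂ} {σ : Type} {e : σ → ℂ} {c : ℂ}
    (hc : c ∈ ext K (range e)) :
    ∃ n D : MvPolynomial σ K, aeval e D ≠ 0 ∧ aeval e n = aeval e D * c := by
  refine Subfield.closure_induction (p := fun c _ =>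
    ∃ n D : MvPolynomial σ K, aeval e D ≠ 0 ∧ aeval e n = aeval e D * c) ?_ ?_ ?_ ?_ ?_ ?_ hc
  · rintro x (hx | ⟨i, rfl⟩)
    · exact ⟨C ⟨x, hx⟩, 1, by simp, by
        rw [map_one, one_mul, aeval_C]
        rfl⟩
    · exact ⟨X i, 1, by simp, by simp⟩
  · exact ⟨1, 1, by simp, by simp⟩
  · rintro x y _ _ ⟨n, D, hD, h⟩ ⟨n', D', hD', h'⟩
    refine ⟨n * D' + n' * D, D * D', ?_, ?_⟩
    · rw [map_mul]; exact mul_ne_zero hD hD'
    · rw [map_add, map_mul, map_mul, map_mul, h, h']; ring
  · rintro x _ ⟨n, D, hD, h⟩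
    exact ⟨-n, D, hD, by rw [map_neg, h]; ring⟩
  · rintro x _ ⟨n, D, hD, h⟩
    by_cases hx : x = 0
    · exact ⟨0, 1, by simp, by rw [hx]; simp⟩
    · have hn : aeval e n ≠ 0 := by rw [h]; exact mul_ne_zero hD hx
      exact ⟨D, n, hn, by rw [h, mul_assoc, mul_inv_cancel₀ hx, mul_one]⟩
  · rintro x y _ _ ⟨n, D, hD, h⟩ ⟨n', D', hD', h'⟩
    refine ⟨n * n', D * D', ?_, ?_⟩
    · rw [map_mul]; exact mul_ne_zero hD hD'
    · rw [map_mul, map_mul, h, h']; ring

/-- The polynomials over the field generated by `e` in terms of polynomials over `K`. -/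
theorem exists_spread {K : Subfield ℂ} {σ τ : Type} {e : σ → ℂ}
    (P : MvPolynomial τ (ext K (range e))) :
    ∃ (D : MvPolynomial σ K) (Q : MvPolynomial σ (MvPolynomial τ K)), aeval e D ≠ 0 ∧
      ∀ w : τ → ℂ, eval₂ (aeval w : MvPolynomial τ K →ₐ[K] ℂ).toRingHom e Q =
        aeval e D * aeval w P := by
  have hCn : ∀ (w : τ → ℂ) (n : MvPolynomial σ K),
      eval₂ (aeval w : MvPolynomial τ K →ₐ[K] ℂ).toRingHom e (MvPolynomial.map C n) =
        aeval e n := by
    intro w n
    rw [eval₂_map, aeval_def]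
    congr 1
    ext k
    exact aeval_C _ _
  induction P using MvPolynomial.induction_on with
  | C c =>
    obtain ⟨n, D, hD, h⟩ := exists_quotient c.2
    refine ⟨D, MvPolynomial.map C n, hD, fun w => ?_⟩
    rw [hCn, h, aeval_C]
    rfl
  | add P P' hP hP' =>
    obtain ⟨D, Q, hD, h⟩ := hP
    obtain ⟨D', Q', hD', h'⟩ := hP'
    refine ⟨D * D', MvPolynomial.map C D' * Q + MvPolynomial.map C D * Q', ?_, fun w => ?_⟩
    · rw [map_mul]; exact mul_ne_zero hD hD'
    · rw [eval₂_add, eval₂_mul, eval₂_mul, hCn, hCn, h, h', map_mul, map_add]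
      ring
  | mul_X P s hP =>
    obtain ⟨D, Q, hD, h⟩ := hP
    refine ⟨D, Q * C (X s), hD, fun w => ?_⟩
    rw [eval₂_mul, eval₂_C, h, map_mul, aeval_X]
    have h1 : (aeval w : MvPolynomial τ K →ₐ[K] ℂ).toRingHom (X s) = w s := aeval_X _ _
    rw [h1]
    ring

theorem affine_mem_ext {ι : Type} {N : ℕ} (K : Subfield ℂ) (a : ι → Fin (N + 1)) (p : ι → Pt N)
    (s : ι × Fin (N + 1)) : affine a p s ∈ ext K (Et p) := by
  have h1 : ∀ j, (p s.1).rep j / (p s.1).rep (can (p s.1)) ∈ ext K (Et p) := fun j =>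
    subset_ext K _ (Set.mem_iUnion.2 ⟨s.1, ⟨((), j), rfl⟩⟩)
  have h2 := div_mem (h1 s.2) (h1 (a s.1))
  have h3 := rep_can (p s.1)
  rw [div_div_div_cancel_right₀ h3] at h2
  exact h2

/-- A specialization of `p` over `K` is a specialization over the field generated by elements which
are independent over the field of `p`. -/
theorem mem_Loc_ext {ι : Type} [Finite ι] {N : ℕ} {K : Subfield ℂ} {p q : ι → Pt N}
    (h : q ∈ Loc K p) {σ : Type} {e : σ → ℂ}
    (he : AlgebraicIndependent (ext K (Et p)) e) : q ∈ Loc (ext K (range e)) p := by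
  classical
  have := Fintype.ofFinite ι
  obtain ⟨a, hqa⟩ := exists_chart q
  have hpa : InChart a p := inChart_of_mem_Loc h hqa
  apply mem_Loc_of_aeval hpa hqa
  intro P hP
  obtain ⟨D, Q, hD, hQ⟩ := exists_spread P
  have h1 := hQ (affine a p)
  rw [hP, mul_zero] at h1
  -- all coefficients of `Q` are zero at `p`
  have hmem : ∀ F : PolyK K ι N, aeval (affine a p) F ∈ ext K (Et p) := by
    intro F
    induction F using MvPolynomial.induction_on with
    | C k =>
      rw [aeval_C]
      exact le_ext _ _ k.2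
    | add F G hF hG => rw [map_add]; exact add_mem hF hG
    | mul_X F s hF => rw [map_mul, aeval_X]; exact mul_mem hF (affine_mem_ext K a p s)
  let g : PolyK K ι N →+* ext K (Et p) :=
    ((aeval (affine a p) : PolyK K ι N →ₐ[K] ℂ).toRingHom).codRestrict _ hmem
  have h2 : aeval e (MvPolynomial.map g Q) = 0 := by
    rw [aeval_def, eval₂_map, ← h1]
    rfl
  have h3 : MvPolynomial.map g Q = 0 := algebraicIndependent_iff.1 he _ h2
  have h4 : ∀ m, aeval (affine a p) (Q.coeff m) = 0 := by
    intro m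
    have h5 := congrArg (MvPolynomial.coeff m) h3
    rw [coeff_map, coeff_zero] at h5
    exact congrArg Subtype.val h5
  have h5 : ∀ m, aeval (affine a q) (Q.coeff m) = 0 := fun m =>
    aeval_of_mem_Loc h hqa _ (h4 m)
  have h6 := hQ (affine a q)
  have h7 : eval₂ (aeval (affine a q) : PolyK K ι N →ₐ[K] ℂ).toRingHom e Q = 0 := by
    rw [eval₂_eq]
    refine Finset.sum_eq_zero fun m _ => ?_
    have h8 : (aeval (affine a q) : PolyK K ι N →ₐ[K] ℂ).toRingHom (Q.coeff m) = 0 := h5 m
    rw [h8, zero_mul]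
  rw [h7] at h6
  exact (mul_eq_zero.1 h6.symm).resolve_left hD

end Pool.Agent.N164.RQ
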