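import Pool.Agent.N164.RP.Main
import Pool.Agent.N164.RQ.Rank2

/-!
# Specializations of parts of tuples
-/

set_option autoImplicit false

open MvPolynomial Set
open scoped LinearAlgebra.Projectivization
open Pool.Agent.N164.RP

namespace Pool.Agent.N164.RQ

variable {ι : Type} {N : ℕ}

theorem Loc_comp {κ κ' : Type} {K : Subfield ℂ} {p q : κ' → Pt N} (h : q ∈ Loc K p) (e : κ → κ')
    (he : Function.Injective e) : (fun i => q (e i)) ∈ Loc K (fun i => p (e i)) := by
  intro F hF
  have hmap : ∀ v : κ' × Fin (N + 1) → ℂ,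
      eval v (toC (rename (fun s : κ × Fin (N + 1) => (e s.1, s.2)) F)) =
        eval (fun s => v (e s.1, s.2)) (toC F) := by
    intro v
    rw [eval_toC, eval_toC, aeval_rename]
    rfl
  have h1 : Vanishes (toC (rename (fun s : κ × Fin (N + 1) => (e s.1, s.2)) F)) p := by
    intro v hv
    rw [hmap (fun s => v s.1 s.2)]
    exact hF (fun i => v (e i)) (fun i => hv (e i))
  have h2 := h _ h1
  intro w hw
  have h3 := h2 (Function.extend e w fun i => (q i).rep) (by
    intro i
    by_cases hi : ∃ j, e j = i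
    · obtain ⟨j, rfl⟩ := hi
      rw [he.extend_apply]
      exact hw j
    · rw [Function.extend_apply' _ _ _ hi]
      exact isCoord_rep _)
  rw [hmap] at h3
  simp only [he.extend_apply] at h3
  exact h3

/-- The tuple `q` restricted to `S` is a specialization over `K` of the tuple `p` restricted
to `S`. -/
def LocS (K : Subfield ℂ) (S : Finset ι) (p q : ι → Pt N) : Prop :=
  (fun i : S => q i) ∈ Loc K (fun i : S => p i)

theorem LocS.mono {K : Subfield ℂ} {S T : Finset ι} {p q : ι → Pt N} (h : LocS K T p q)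
    (hST : S ⊆ T) : LocS K S p q :=
  Loc_comp h (fun i : S => (⟨i, hST i.2⟩ : T)) (fun _ _ hij => Subtype.ext
    (congrArg (fun x : T => (x : ι)) hij))

theorem LocS.field_mono {K K' : Subfield ℂ} (hK : K ≤ K') {S : Finset ι} {p q : ι → Pt N}
    (h : LocS K' S p q) : LocS K S p q := Loc_mono hK _ h

theorem LocS.congr {K : Subfield ℂ} {S : Finset ι} {p q q' : ι → Pt N} (h : LocS K S p q)
    (hq : ∀ i ∈ S, q' i = q i) : LocS K S p q' := by
  have h1 : (fun i : S => q' i) = fun i : S => q i := funext fun i => hq i i.2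
  rw [LocS, h1]
  exact h

theorem LocS.unit {K : Subfield ℂ} {S : Finset ι} {p q : ι → Pt N} (h : LocS K S p q) {i : ι}
    (hi : i ∈ S) : (fun _ : Unit => q i) ∈ Loc K (fun _ : Unit => p i) :=
  Loc_comp h (fun _ : Unit => (⟨i, hi⟩ : S)) (fun _ _ _ => rfl)

theorem LocS_singleton {K : Subfield ℂ} {p q : ι → Pt N} {i : ι}
    (h : (fun _ : Unit => q i) ∈ Loc K (fun _ : Unit => p i)) : LocS K {i} p q := by
  have h1 := Loc_comp h (fun _ : ({i} : Finset ι) => ()) (by
    rintro ⟨a, ha⟩ ⟨b, hb⟩ _
    rw [Finset.mem_singleton] at ha hb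
    exact Subtype.ext (ha.trans hb.symm))
  have h2 : ∀ p : ι → Pt N, (fun _ : ({i} : Finset ι) => p i) = fun j : ({i} : Finset ι) => p j := by
    intro p
    funext j
    rw [Finset.mem_singleton.1 j.2]
  rw [h2, h2] at h1
  exact h1

theorem LocS_univ [Fintype ι] {K : Subfield ℂ} {p q : ι → Pt N} :
    LocS K Finset.univ p q ↔ q ∈ Loc K p := by
  constructor
  · intro h
    exact Loc_comp h (fun i : ι => (⟨i, Finset.mem_univ i⟩ : (Finset.univ : Finset ι)))
      (fun _ _ hij => congrArg (fun x : (Finset.univ : Finset ι) => (x : ι)) hij)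
  · intro h
    exact Loc_comp h (fun i : (Finset.univ : Finset ι) => (i : ι)) Subtype.val_injective

theorem locS_insert [DecidableEq ι] {K : Subfield ℂ} {S : Finset ι} {p q : ι → Pt N}
    (h : LocS K S p q) (j : ι) :
    ∃ y, LocS K (insert j S) p (Function.update q j y) := by
  classical
  let ε : S ≃ Fin (Fintype.card S) := Fintype.equivFin S
  have h1 := Loc_comp h ε.symm ε.symm.injective
  obtain ⟨y, hy⟩ := exists_cons (p j) _ _ h1
  refine ⟨y, ?_⟩
  have hmem : ∀ i : (insert j S : Finset ι), (i : ι) ≠ j → (i : ι) ∈ S := fun i hi =>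
    (Finset.mem_insert.1 i.2).resolve_left hi
  let e : ↥(insert j S : Finset ι) → Fin (Fintype.card S + 1) := fun i =>
    if hi : (i : ι) = j then 0 else Fin.succ (ε ⟨i, hmem i hi⟩)
  have he : Function.Injective e := by
    intro i i' hii
    by_cases hi : (i : ι) = j
    · by_cases hi' : (i' : ι) = j
      · exact Subtype.ext (hi.trans hi'.symm)
      · simp only [e, dif_pos hi, dif_neg hi'] at hii
        exact absurd hii.symm (Fin.succ_ne_zero _)
    · by_cases hi' : (i' : ι) = j
      · simp only [e, dif_neg hi, dif_pos hi'] at hii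
        exact absurd hii (Fin.succ_ne_zero _)
      · simp only [e, dif_neg hi, dif_neg hi'] at hii
        have h2 := ε.injective (Fin.succ_injective _ hii)
        exact Subtype.ext (congrArg (fun x : S => (x : ι)) h2)
  have h2 := Loc_comp hy e he
  have h3 : (fun i : (insert j S : Finset ι) => (Fin.cons (p j) (fun i => p (ε.symm i)) :
      Fin (Fintype.card S + 1) → Pt N) (e i)) = fun i : (insert j S : Finset ι) => p i := by
    funext i
    by_cases hi : (i : ι) = j
    · simp only [e, dif_pos hi, Fin.cons_zero]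
      rw [hi]
    · simp only [e, dif_neg hi, Fin.cons_succ, Equiv.symm_apply_apply]
  have h4 : (fun i : (insert j S : Finset ι) => (Fin.cons y (fun i => q (ε.symm i)) :
      Fin (Fintype.card S + 1) → Pt N) (e i)) =
      fun i : (insert j S : Finset ι) => Function.update q j y i := by
    funext i
    by_cases hi : (i : ι) = j
    · simp only [e, dif_pos hi, Fin.cons_zero]
      rw [hi, Function.update_self]
    · simp only [e, dif_neg hi, Fin.cons_succ, Equiv.symm_apply_apply]
      rw [Function.update_of_ne hi]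
  rw [h3, h4] at h2
  exact h2

/-- Extension of specializations. -/
theorem LocS.extend [DecidableEq ι] {K : Subfield ℂ} {S : Finset ι} {p q : ι → Pt N}
    (h : LocS K S p q) (T : Finset ι) (hST : S ⊆ T) :
    ∃ q', LocS K T p q' ∧ ∀ i ∈ S, q' i = q i := by
  classical
  have key : ∀ U : Finset ι, Disjoint S U → ∃ q', LocS K (S ∪ U) p q' ∧ ∀ i ∈ S, q' i = q i := by
    intro U
    induction U using Finset.induction_on with
    | empty =>
      intro _
      refine ⟨q, ?_, fun _ _ => rfl⟩
      rw [Finset.union_empty]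
      exact h
    | insert j U _ ih =>
      intro hd
      rw [Finset.disjoint_insert_right] at hd
      obtain ⟨q', hq', h1⟩ := ih hd.2
      obtain ⟨y, hy⟩ := locS_insert hq' j
      refine ⟨Function.update q' j y, ?_, fun i hi => ?_⟩
      · rw [Finset.union_insert]
        exact hy
      · rw [Function.update_of_ne, h1 i hi]
        rintro rfl
        exact hd.1 hi
  obtain ⟨q', h1, h2⟩ := key (T \ S) Finset.disjoint_sdiff
  rw [Finset.union_sdiff_of_subset hST] at h1
  exact ⟨q', h1, h2⟩

/-- The affine coordinates of the points with the indices in `S`. -/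
noncomputable def Es (p : ι → Pt N) (S : Finset ι) : Set ℂ := ⋃ i ∈ S, E (p i)

theorem Et_restrict (p : ι → Pt N) (S : Finset ι) : Et (fun i : S => p i) = Es p S := by
  ext z
  simp only [Et, Es, mem_iUnion, Subtype.exists]

theorem Es_union [DecidableEq ι] (p : ι → Pt N) (S T : Finset ι) :
    Es p (S ∪ T) = Es p S ∪ Es p T := by
  ext z
  simp only [Es, mem_iUnion, Finset.mem_union, mem_union, exists_prop]
  constructor
  · rintro ⟨i, hi | hi, hz⟩
    · exact Or.inl ⟨i, hi, hz⟩
    · exact Or.inr ⟨i, hi, hz⟩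
  · rintro (⟨i, hi, hz⟩ | ⟨i, hi, hz⟩)
    · exact ⟨i, Or.inl hi, hz⟩
    · exact ⟨i, Or.inr hi, hz⟩

theorem Es_singleton (p : ι → Pt N) (i : ι) : Es p {i} = E (p i) := by
  simp [Es]

theorem Es_univ [Fintype ι] (p : ι → Pt N) : Es p Finset.univ = Et p := by
  simp [Es, Et]

theorem finite_Es (p : ι → Pt N) (S : Finset ι) : (Es p S).Finite :=
  S.finite_toSet.biUnion fun i _ => finite_E (p i)

theorem LocS.ext {K : Subfield ℂ} {S : Finset ι} {p q : ι → Pt N} (h : LocS K S p q) {B : Set ℂ}
    (hB : (M (ext K (Es p S))).Indep B) : LocS (RP.ext K B) S p q := by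
  rw [← Et_restrict] at hB
  have h1 : AlgebraicIndependent (RP.ext K (Et fun i : S => p i)) (fun t : B => (t : ℂ)) := hB
  have h2 := mem_Loc_ext h h1
  rw [Subtype.range_coe] at h2
  exact h2

end Pool.Agent.N164.RQ
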